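import Pool.Agent.MP_952ea4_co.Checker

/-! The certificate (computer generated). Vertices a,b,c,d,m,n,o,p,q,r,s,t are 0,...,11. -/

namespace Pool.Agent.MP_952ea4_co

def facetList : List (Nat × Nat × Nat × Nat) :=
  [(0, 1, 2, 3), (0, 1, 2, 9), (0, 2, 3, 9), (0, 1, 3, 11), (1, 2, 3, 11), (0, 1, 4, 9), (1, 2, 5, 9), (2, 3, 6, 9), (3, 0, 7, 9), (0, 1, 4, 11), (1, 2, 5, 11), (2, 3, 6, 11), (3, 0, 7, 11), (4, 5, 6, 7), (4, 5, 6, 8), (4, 6, 7, 8), (5, 6, 7, 10), (4, 5, 7, 10), (0, 5, 6, 8), (1, 6, 7, 8), (2, 7, 4, 8), (0, 5, 6, 10), (1, 6, 7, 10), (2, 7, 4, 10)]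

def certPP : Cert :=
  (.split 274960 [0, -1] (.fac 0 1 2 3 9 4)
  (.split 406032 [0, -1] (.fac 0 1 2 3 9 6)
  (.split 471568 [0, -1] (.fac 0 1 2 3 9 7)
  (.split 606736 [0, -1] (.fac 0 1 2 9 3 4)
  (.split 733712 [0, -1] (.fac 0 1 2 3 9 11)
  (.split 738064 [1, 0] (.fac 0 1 3 11 2 4)
  (.split 737808 [1, 0] (.fac 0 1 4 11 3 2)
  (.split 742177 [1, 0] (.fac 1 2 3 11 0 5)
  (.split 741904 [1, 0] (.fac 1 2 5 11 3 0)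
  (.split 614928 [0, -1] (.fac 0 1 2 9 3 6)
  (.split 619024 [0, -1] (.fac 0 1 2 9 3 7)
  (.split 606992 [0, -1] (.fac 0 1 4 9 2 3)
  (.split 746256 [1, 0] (.fac 0 1 3 11 2 6)
  (.split 619296 [0, -1] (.fac 0 2 3 9 1 7)
  (.split 619280 [0, -1] (.fac 3 0 7 9 2 1)
  (.split 750352 [1, 0] (.fac 0 1 3 11 2 7)
  (.split 615440 [1, 0] (.fac 0 1 4 9 2 6)
  (.split 746512 [0, -1] (.fac 0 1 4 11 3 6)
  (.split 619536 [1, 0] (.fac 0 1 4 9 2 7)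
  (.split 750608 [0, -1] (.fac 0 1 4 11 3 7)
  (.split 754704 [0, -1] (.fac 0 1 4 11 3 8)
  (.split 693264 [0, -1] (.fac 0 1 4 9 2 10)
  (.split 550208 [1, 0] (.fac 4 5 6 8 7 0)
  (.split 550160 [1, 0] (.fac 0 5 6 8 4 1)
  (.split 554561 [1, 0] (.fac 4 6 7 8 5 1)
  (.split 554512 [0, -1] (.fac 1 6 7 8 4 0)
  (.split 685652 [0, -1] (.fac 4 5 6 7 8 10)
  (.split 685649 [0, -1] (.fac 5 6 7 10 4 1)
  (.split 685584 [1, 0] (.fac 1 6 7 10 5 0)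
  (.split 607008 [0, -1] (.fac 0 2 3 9 1 4)
  (.split 615200 [0, -1] (.fac 0 2 3 9 1 6)
  (.split 746273 [1, 0] (.fac 1 2 3 11 0 6)
  (.split 746272 [1, 0] (.fac 2 3 6 11 1 0)
  (.split 554562 [1, 0] (.fac 4 6 7 8 5 2)
  (.split 554016 [1, 0] (.fac 2 7 4 8 6 0)
  (.split 685378 [0, -1] (.fac 4 5 7 10 6 2)
  (.split 685088 [0, -1] (.fac 2 7 4 10 5 0)
  (.split 619568 [1, 0] (.fac 3 0 7 9 2 4)
  (.split 750640 [0, -1] (.fac 3 0 7 11 1 4)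
  (.split 619824 [1, 0] (.fac 3 0 7 9 2 5)
  (.split 620080 [1, 0] (.fac 3 0 7 9 2 6)
  (.split 751152 [0, -1] (.fac 3 0 7 11 1 6)
  (.split 624432 [0, -1] (.fac 3 0 7 9 2 8)
  (.split 694064 [1, 0] (.fac 3 0 7 9 2 10)
  (.split 484672 [0, -1] (.fac 4 5 6 7 8 0)
  (.split 685648 [0, -1] (.fac 5 6 7 10 4 0)
  (.split 681280 [0, -1] (.fac 0 5 6 10 7 4)
  (.split 685376 [0, -1] (.fac 4 5 7 10 6 0)
  (.split 554560 [1, 0] (.fac 4 6 7 8 5 0)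
  (.split 554576 [1, 0] (.fac 0 5 6 8 4 7)
  (.split 693840 [0, -1] (.fac 0 5 6 10 7 9)
  (.split 615201 [0, -1] (.fac 2 3 6 9 0 1)
  (.split 742433 [1, 0] (.fac 1 2 5 11 3 4)
  (.split 554017 [1, 0] (.fac 2 7 4 8 6 1)
  (.split 685089 [0, -1] (.fac 2 7 4 10 5 1)
  (.split 610832 [0, -1] (.fac 0 1 2 9 3 5)
  (.split 619809 [1, 0] (.fac 1 2 5 9 0 7)
  (.split 685601 [0, -1] (.fac 1 6 7 10 5 2)
  (.split 554545 [1, 0] (.fac 1 6 7 8 4 3)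
  (.split 685617 [0, -1] (.fac 1 6 7 10 5 3)
  (.split 685633 [0, -1] (.fac 1 6 7 10 5 4)
  (.split 624481 [0, -1] (.fac 1 6 7 8 4 9)
  (.split 755553 [0, -1] (.fac 1 6 7 8 4 11)
  (.split 694113 [0, -1] (.fac 1 6 7 10 5 9)
  (.split 620082 [1, 0] (.fac 2 3 6 9 0 7)
  (.split 751154 [0, -1] (.fac 2 3 6 11 1 7)
  (.split 484674 [0, -1] (.fac 4 5 6 7 8 2)
  (.split 554306 [1, 0] (.fac 2 7 4 8 6 5)
  (.split 763714 [0, -1] (.fac 2 7 4 10 5 11)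
  (.split 624484 [1, 0] (.fac 4 6 7 8 5 9)
  (.split 549904 [1, 0] (.gp 0 6 8 1 4 5 7)
  (.split 619552 [1, 0] (.gp 0 4 9 1 2 3 7)
  (.split 751153 [0, -1] (.gp 3 6 11 0 1 2 7)
  (.split 620096 [0, -1] (.split 620048 [1, 0] (.gp 0 7 9 1 3 4 6)
  (.split 615184 [0, -1] (.gp 0 1 9 3 4 6 7)
  (.split 620081 [1, 0] (.gp 3 6 9 0 1 2 7)
  (.split 484112 [1, 0] (.gp 1 6 7 0 3 9 10)
  (.split 483856 [1, 0] (.gp 0 1 6 2 3 7 9)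
  (.split 751120 [1, 0] (.gp 1 6 7 0 3 8 11)
  (.split 759568 [0, -1] (.gp 0 1 7 3 6 9 11)
  (.split 750096 [1, 0] (.gp 0 1 7 2 3 6 11)
  (.split 484368 [0, -1] (.gp 0 1 7 4 6 9 11)
  (.split 484385 [1, 0] (.gp 1 6 7 0 2 4 10)
  (.split 480289 [1, 0] (.gp 2 4 7 1 5 6 8)
  (.split 554000 [1, 0] (.gp 0 1 4 6 7 8 11)
  (.split 624480 [1, 0] (.gp 0 6 7 1 4 8 9)
  (.split 620097 [0, -1] (.gp 6 7 9 0 1 4 8)
  (.split 475664 [0, -1] (.gp 1 4 7 0 2 6 8)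
  (.split 475936 [0, -1] (.gp 0 2 7 1 3 4 9)
  (.split 619553 [0, -1] (.gp 1 4 7 0 2 6 9)
  (.split 479760 [1, 0] (.gp 1 2 7 0 4 5 9)
  (.split 475920 [0, -1] (.gp 0 1 4 2 3 7 9)
  (.split 750624 [0, -1] (.gp 0 4 7 1 2 3 11)
  (.split 344592 [0, -1] (.gp 0 1 2 4 5 7 11)
  (.split 750625 [1] (.gp 1 2 4 0 5 7 11)
  (.gp 2 4 7 0 1 10 11)))))))))))))))))))))))
  (.split 694080 [0, -1] (.split 694112 [1, 0] (.gp 0 7 9 3 4 6 10)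
  (.split 693824 [1, 0] (.gp 0 4 9 1 6 7 10)
  (.split 685632 [1, 0] (.gp 0 6 10 4 5 7 9)
  (.split 620112 [1, 0] (.gp 0 6 7 4 5 9 10)
  (.split 694096 [1, 0] (.gp 0 7 9 3 5 6 10)
  (.split 619840 [1] (.gp 0 5 7 4 6 9 10)
  (.gp 0 7 9 3 4 5 6)))))))
  (.split 685632 [-1] (.split 619840 [1, 0] (.gp 0 4 7 5 6 9 10)
  (.split 620112 [0, -1] (.gp 0 7 9 3 4 5 6)
  (.split 694096 [1, 0] (.gp 0 5 7 4 6 9 10)
  (.split 694112 [1] (.gp 0 7 9 3 5 6 10)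
  (.gp 0 6 7 4 5 9 10)))))
  (.split 619840 [0, -1] (.gp 0 4 7 5 6 9 10)
  (.split 480288 [1, 0] (.gp 0 4 7 2 5 9 10)
  (.split 484384 [1, 0] (.gp 0 4 7 2 5 6 9)
  (.split 624448 [0, -1] (.gp 0 4 7 2 6 8 9)
  (.split 624480 [0, -1] (.gp 0 7 9 3 4 6 8)
  (.split 484368 [1] (.split 554000 [-1] (.gp 0 4 7 1 6 8 9)
  (.gp 0 1 4 6 7 8 11))
  (.split 620048 [1, 0] (.gp 0 6 7 1 4 8 9)
  (.split 615184 [0, -1] (.gp 0 1 9 3 4 6 7)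
  (.split 620081 [1, 0] (.gp 3 6 9 0 1 2 7)
  (.split 484112 [1, 0] (.gp 1 6 7 0 3 9 10)
  (.split 483856 [1, 0] (.gp 0 1 6 2 3 7 9)
  (.split 751120 [1, 0] (.gp 1 6 7 0 3 8 11)
  (.split 759568 [1] (.gp 0 1 7 4 6 9 11)
  (.gp 0 1 7 3 6 9 11))))))))))))))))))))))))))))))))))))))))))))))))))))))))))))))))))))))))))))))))))))))))))

def certPM : Cert :=
  (.split 406032 [0, -1] (.fac 0 1 2 3 9 6)
  (.split 610832 [0, -1] (.fac 0 1 2 9 3 5)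
  (.split 614928 [0, -1] (.fac 0 1 2 9 3 6)
  (.split 619024 [0, -1] (.fac 0 1 2 9 3 7)
  (.split 733712 [0, -1] (.fac 0 1 2 3 9 11)
  (.split 746256 [1, 0] (.fac 0 1 3 11 2 6)
  (.split 619296 [0, -1] (.fac 0 2 3 9 1 7)
  (.split 619280 [0, -1] (.fac 3 0 7 9 2 1)
  (.split 606736 [0, -1] (.fac 0 1 2 9 3 4)
  (.split 615440 [1, 0] (.fac 0 1 4 9 2 6)
  (.split 738064 [1, 0] (.fac 0 1 3 11 2 4)
  (.split 746512 [0, -1] (.fac 0 1 4 11 3 6)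
  (.split 550208 [0, -1] (.fac 4 5 6 8 7 0)
  (.split 550160 [0, -1] (.fac 0 5 6 8 4 1)
  (.split 685652 [1, 0] (.fac 4 5 6 7 8 10)
  (.split 685648 [1, 0] (.fac 5 6 7 10 4 0)
  (.split 681232 [1, 0] (.fac 0 5 6 10 7 1)
  (.split 554561 [0, -1] (.fac 4 6 7 8 5 1)
  (.split 554512 [1, 0] (.fac 1 6 7 8 4 0)
  (.split 685649 [1, 0] (.fac 5 6 7 10 4 1)
  (.split 685584 [0, -1] (.fac 1 6 7 10 5 0)
  (.split 611104 [0, -1] (.fac 0 2 3 9 1 5)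
  (.split 615200 [0, -1] (.fac 0 2 3 9 1 6)
  (.split 746273 [1, 0] (.fac 1 2 3 11 0 6)
  (.split 746272 [1, 0] (.fac 2 3 6 11 1 0)
  (.split 550176 [0, -1] (.fac 0 5 6 8 4 2)
  (.split 681248 [1, 0] (.fac 0 5 6 10 7 2)
  (.split 620080 [1, 0] (.fac 3 0 7 9 2 6)
  (.split 750352 [1, 0] (.fac 0 1 3 11 2 7)
  (.split 751152 [0, -1] (.fac 3 0 7 11 1 6)
  (.split 484672 [1, 0] (.fac 4 5 6 7 8 0)
  (.split 624208 [1, 0] (.fac 0 5 6 8 4 9)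
  (.split 755280 [1, 0] (.fac 0 5 6 8 4 11)
  (.split 611105 [0, -1] (.fac 1 2 5 9 0 3)
  (.split 615201 [0, -1] (.fac 2 3 6 9 0 1)
  (.split 750369 [1, 0] (.fac 1 2 3 11 0 7)
  (.split 611361 [0, -1] (.fac 1 2 5 9 0 4)
  (.split 685378 [1, 0] (.fac 4 5 7 10 6 2)
  (.split 685089 [1, 0] (.fac 2 7 4 10 5 1)
  (.split 615713 [1, 0] (.fac 1 2 5 9 0 6)
  (.split 742177 [1, 0] (.fac 1 2 3 11 0 5)
  (.split 746785 [0, -1] (.fac 1 2 5 11 3 6)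
  (.split 619809 [1, 0] (.fac 1 2 5 9 0 7)
  (.split 750881 [0, -1] (.fac 1 2 5 11 3 7)
  (.split 623905 [1, 0] (.fac 1 2 5 9 0 8)
  (.split 693537 [0, -1] (.fac 1 2 5 9 0 10)
  (.split 554529 [0, -1] (.fac 1 6 7 8 4 2)
  (.split 685601 [1, 0] (.fac 1 6 7 10 5 2)
  (.split 554545 [0, -1] (.fac 1 6 7 8 4 3)
  (.split 685617 [1, 0] (.fac 1 6 7 10 5 3)
  (.split 484673 [1, 0] (.fac 4 5 6 7 8 1)
  (.split 550209 [0, -1] (.fac 4 5 6 8 7 1)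
  (.split 685377 [1, 0] (.fac 4 5 7 10 6 1)
  (.split 685633 [1, 0] (.fac 1 6 7 10 5 4)
  (.split 554577 [0, -1] (.fac 1 6 7 8 4 5)
  (.split 624481 [1, 0] (.fac 1 6 7 8 4 9)
  (.split 755553 [1, 0] (.fac 1 6 7 8 4 11)
  (.split 694113 [1, 0] (.fac 1 6 7 10 5 9)
  (.split 615474 [0, -1] (.fac 2 3 6 9 0 4)
  (.split 615730 [0, -1] (.fac 2 3 6 9 0 5)
  (.split 746802 [1, 0] (.fac 2 3 6 11 1 5)
  (.split 620082 [1, 0] (.fac 2 3 6 9 0 7)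
  (.split 751154 [0, -1] (.fac 2 3 6 11 1 7)
  (.split 624178 [1, 0] (.fac 2 3 6 9 0 8)
  (.split 693810 [0, -1] (.fac 2 3 6 9 0 10)
  (.split 484674 [1, 0] (.fac 4 5 6 7 8 2)
  (.split 550210 [0, -1] (.fac 4 5 6 8 7 2)
  (.split 685634 [1, 0] (.fac 2 7 4 10 5 6)
  (.split 554562 [0, -1] (.fac 4 6 7 8 5 2)
  (.split 624450 [0, -1] (.fac 2 7 4 8 6 9)
  (.split 694082 [0, -1] (.fac 2 7 4 10 5 9)
  (.split 685650 [1, 0] (.fac 5 6 7 10 4 2)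
  (.split 620116 [1, 0] (.fac 4 5 6 7 8 9)
  (.split 624212 [0, -1] (.fac 4 5 6 8 7 9)
  (.split 624484 [0, -1] (.fac 4 6 7 8 5 9)
  (.split 694117 [0, -1] (.fac 5 6 7 10 4 9)
  (.split 685345 [1, 0] (.gp 1 7 10 2 4 5 6)
  (.split 751153 [0, -1] (.gp 3 6 11 0 1 2 7)
  (.split 615712 [1, 0] (.gp 2 5 9 0 1 3 6)
  (.split 620114 [0, -1] (.split 620065 [0, -1] (.gp 2 6 9 1 3 5 7)
  (.split 619297 [0, -1] (.gp 1 2 9 3 5 6 7)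
  (.split 620081 [1, 0] (.gp 3 7 9 0 1 2 6)
  (.split 484129 [0, -1] (.gp 1 6 7 2 3 9 10)
  (.split 620064 [0, -1] (.gp 2 6 9 0 1 3 7)
  (.split 759649 [0, -1] (.gp 1 6 7 3 8 9 11)
  (.split 751137 [0, -1] (.gp 1 6 7 2 8 9 11)
  (.split 620048 [0, -1] (.gp 0 7 9 1 2 3 6)
  (.split 759585 [0, -1] (.gp 1 2 7 3 6 9 11)
  (.split 483856 [0, -1] (.gp 1 6 7 0 2 9 10)
  (.split 484641 [1, 0] (.gp 1 2 7 5 6 9 11)
  (.split 746000 [1, 0] (.gp 1 2 6 0 3 7 11)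
  (.split 484624 [0, -1] (.gp 1 6 7 0 2 5 8)
  (.split 746784 [0, -1] (.gp 2 6 11 0 1 3 5)
  (.split 694114 [0, -1] (.gp 2 6 7 1 5 9 10)
  (.split 414736 [0, -1] (.gp 1 5 6 0 4 7 8)
  (.split 681249 [1, 0] (.gp 1 2 5 6 7 9 10)
  (.split 620113 [0, -1] (.gp 6 7 9 1 2 5 10)
  (.split 620112 [0, -1] (.gp 6 7 9 0 1 2 5)
  (.split 414224 [0, -1] (.gp 1 5 6 0 2 7 10)
  (.split 746768 [0, -1] (.gp 0 5 6 1 2 8 11)
  (.split 410128 [0, -1] (.gp 0 1 6 2 4 5 11)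
  (.split 615696 [1, 0] (.gp 0 1 6 2 4 5 9)
  (.split 615744 [-1] (.gp 0 5 6 1 4 7 9)
  (.gp 0 5 6 1 4 8 9)))))))))))))))))))))))))
  (.split 615746 [-1] (.split 619842 [1, 0] (.gp 2 5 9 1 4 6 7)
  (.split 620098 [1] (.gp 2 4 7 5 6 9 10)
  (.gp 2 6 9 3 4 5 7)))
  (.split 624210 [-1] (.split 624194 [1, 0] (.gp 2 6 9 3 4 5 8)
  (.split 620098 [0, -1] (.gp 4 6 9 2 5 7 8)
  (.split 619842 [0, -1] (.gp 2 4 7 5 6 9 10)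
  (.split 623938 [-1] (.gp 2 5 9 1 4 6 8)
  (.gp 2 4 9 5 6 7 8)))))
  (.split 554578 [0, -1] (.gp 2 5 6 4 7 8 9)
  (.split 484640 [0, -1] (.gp 2 5 6 0 7 8 9)
  (.split 693842 [0, -1] (.gp 2 5 6 0 7 9 10)
  (.split 693793 [1, 0] (.gp 2 6 9 1 3 5 10)
  (.split 694114 [1, 0] (.gp 2 6 9 3 5 7 10)
  (.split 694049 [0, -1] (.gp 2 7 10 1 4 6 9)
  (.split 681249 [0, -1] (.gp 1 2 10 5 6 7 9)
  (.split 484641 [0, -1] (.gp 1 2 5 6 7 9 10)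
  (.split 620065 [0, -1] (.gp 2 6 7 1 5 9 10)
  (.split 619297 [0, -1] (.gp 1 2 9 3 5 6 7)
  (.split 620081 [1, 0] (.gp 3 7 9 0 1 2 6)
  (.split 484129 [0, -1] (.gp 1 6 7 2 3 9 10)
  (.split 620064 [0, -1] (.gp 2 6 9 0 1 3 7)
  (.split 759649 [0, -1] (.gp 1 6 7 3 8 9 11)
  (.split 751137 [0, -1] (.gp 1 6 7 2 8 9 11)
  (.split 759585 [-1] (.gp 1 2 7 3 6 9 11)
  (.gp 1 2 7 5 6 9 11)))))))))))))))))))))))))))))))))))))))))))))))))))))))))))))))))))))))))))))))))))))))))))))))))))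

def certMP : Cert :=
  (.split 406032 [1, 0] (.fac 0 1 2 3 9 6)
  (.split 610832 [1, 0] (.fac 0 1 2 9 3 5)
  (.split 614928 [1, 0] (.fac 0 1 2 9 3 6)
  (.split 619024 [1, 0] (.fac 0 1 2 9 3 7)
  (.split 733712 [1, 0] (.fac 0 1 2 3 9 11)
  (.split 746256 [0, -1] (.fac 0 1 3 11 2 6)
  (.split 619296 [1, 0] (.fac 0 2 3 9 1 7)
  (.split 619280 [1, 0] (.fac 3 0 7 9 2 1)
  (.split 606736 [1, 0] (.fac 0 1 2 9 3 4)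
  (.split 615440 [0, -1] (.fac 0 1 4 9 2 6)
  (.split 738064 [0, -1] (.fac 0 1 3 11 2 4)
  (.split 746512 [1, 0] (.fac 0 1 4 11 3 6)
  (.split 550208 [1, 0] (.fac 4 5 6 8 7 0)
  (.split 550160 [1, 0] (.fac 0 5 6 8 4 1)
  (.split 685652 [0, -1] (.fac 4 5 6 7 8 10)
  (.split 685648 [0, -1] (.fac 5 6 7 10 4 0)
  (.split 681232 [0, -1] (.fac 0 5 6 10 7 1)
  (.split 554561 [1, 0] (.fac 4 6 7 8 5 1)
  (.split 554512 [0, -1] (.fac 1 6 7 8 4 0)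
  (.split 685649 [0, -1] (.fac 5 6 7 10 4 1)
  (.split 685584 [1, 0] (.fac 1 6 7 10 5 0)
  (.split 611104 [1, 0] (.fac 0 2 3 9 1 5)
  (.split 615200 [1, 0] (.fac 0 2 3 9 1 6)
  (.split 746273 [0, -1] (.fac 1 2 3 11 0 6)
  (.split 746272 [0, -1] (.fac 2 3 6 11 1 0)
  (.split 550176 [1, 0] (.fac 0 5 6 8 4 2)
  (.split 681248 [0, -1] (.fac 0 5 6 10 7 2)
  (.split 620080 [0, -1] (.fac 3 0 7 9 2 6)
  (.split 750352 [0, -1] (.fac 0 1 3 11 2 7)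
  (.split 751152 [1, 0] (.fac 3 0 7 11 1 6)
  (.split 484672 [0, -1] (.fac 4 5 6 7 8 0)
  (.split 624208 [0, -1] (.fac 0 5 6 8 4 9)
  (.split 755280 [0, -1] (.fac 0 5 6 8 4 11)
  (.split 611105 [1, 0] (.fac 1 2 5 9 0 3)
  (.split 615201 [1, 0] (.fac 2 3 6 9 0 1)
  (.split 750369 [0, -1] (.fac 1 2 3 11 0 7)
  (.split 611361 [1, 0] (.fac 1 2 5 9 0 4)
  (.split 685378 [0, -1] (.fac 4 5 7 10 6 2)
  (.split 685089 [0, -1] (.fac 2 7 4 10 5 1)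
  (.split 615713 [0, -1] (.fac 1 2 5 9 0 6)
  (.split 742177 [0, -1] (.fac 1 2 3 11 0 5)
  (.split 746785 [1, 0] (.fac 1 2 5 11 3 6)
  (.split 619809 [0, -1] (.fac 1 2 5 9 0 7)
  (.split 750881 [1, 0] (.fac 1 2 5 11 3 7)
  (.split 623905 [0, -1] (.fac 1 2 5 9 0 8)
  (.split 693537 [1, 0] (.fac 1 2 5 9 0 10)
  (.split 554529 [1, 0] (.fac 1 6 7 8 4 2)
  (.split 685601 [0, -1] (.fac 1 6 7 10 5 2)
  (.split 554545 [1, 0] (.fac 1 6 7 8 4 3)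
  (.split 685617 [0, -1] (.fac 1 6 7 10 5 3)
  (.split 484673 [0, -1] (.fac 4 5 6 7 8 1)
  (.split 550209 [1, 0] (.fac 4 5 6 8 7 1)
  (.split 685377 [0, -1] (.fac 4 5 7 10 6 1)
  (.split 685633 [0, -1] (.fac 1 6 7 10 5 4)
  (.split 554577 [1, 0] (.fac 1 6 7 8 4 5)
  (.split 624481 [0, -1] (.fac 1 6 7 8 4 9)
  (.split 755553 [0, -1] (.fac 1 6 7 8 4 11)
  (.split 694113 [0, -1] (.fac 1 6 7 10 5 9)
  (.split 615474 [1, 0] (.fac 2 3 6 9 0 4)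
  (.split 615730 [1, 0] (.fac 2 3 6 9 0 5)
  (.split 746802 [0, -1] (.fac 2 3 6 11 1 5)
  (.split 620082 [0, -1] (.fac 2 3 6 9 0 7)
  (.split 751154 [1, 0] (.fac 2 3 6 11 1 7)
  (.split 624178 [0, -1] (.fac 2 3 6 9 0 8)
  (.split 693810 [1, 0] (.fac 2 3 6 9 0 10)
  (.split 484674 [0, -1] (.fac 4 5 6 7 8 2)
  (.split 550210 [1, 0] (.fac 4 5 6 8 7 2)
  (.split 685634 [0, -1] (.fac 2 7 4 10 5 6)
  (.split 554562 [1, 0] (.fac 4 6 7 8 5 2)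
  (.split 624450 [1, 0] (.fac 2 7 4 8 6 9)
  (.split 694082 [1, 0] (.fac 2 7 4 10 5 9)
  (.split 685650 [0, -1] (.fac 5 6 7 10 4 2)
  (.split 620116 [0, -1] (.fac 4 5 6 7 8 9)
  (.split 624212 [1, 0] (.fac 4 5 6 8 7 9)
  (.split 624484 [1, 0] (.fac 4 6 7 8 5 9)
  (.split 694117 [1, 0] (.fac 5 6 7 10 4 9)
  (.split 685345 [0, -1] (.gp 1 7 10 2 4 5 6)
  (.split 751153 [1, 0] (.gp 3 6 11 0 1 2 7)
  (.split 615712 [0, -1] (.gp 2 5 9 0 1 3 6)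
  (.split 620114 [1, 0] (.split 620065 [1, 0] (.gp 2 6 9 1 3 5 7)
  (.split 619297 [1, 0] (.gp 1 2 9 3 5 6 7)
  (.split 620081 [0, -1] (.gp 3 7 9 0 1 2 6)
  (.split 484129 [1, 0] (.gp 1 6 7 2 3 9 10)
  (.split 620064 [1, 0] (.gp 2 6 9 0 1 3 7)
  (.split 759649 [1, 0] (.gp 1 6 7 3 8 9 11)
  (.split 751137 [1, 0] (.gp 1 6 7 2 8 9 11)
  (.split 620048 [1, 0] (.gp 0 7 9 1 2 3 6)
  (.split 759585 [1, 0] (.gp 1 2 7 3 6 9 11)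
  (.split 483856 [1, 0] (.gp 1 6 7 0 2 9 10)
  (.split 484641 [0, -1] (.gp 1 2 7 5 6 9 11)
  (.split 746000 [0, -1] (.gp 1 2 6 0 3 7 11)
  (.split 484624 [1, 0] (.gp 1 6 7 0 2 5 8)
  (.split 746784 [1, 0] (.gp 2 6 11 0 1 3 5)
  (.split 694114 [1, 0] (.gp 2 6 7 1 5 9 10)
  (.split 414736 [1, 0] (.gp 1 5 6 0 4 7 8)
  (.split 681249 [0, -1] (.gp 1 2 5 6 7 9 10)
  (.split 620113 [1, 0] (.gp 6 7 9 1 2 5 10)
  (.split 620112 [1, 0] (.gp 6 7 9 0 1 2 5)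
  (.split 414224 [1, 0] (.gp 1 5 6 0 2 7 10)
  (.split 746768 [1, 0] (.gp 0 5 6 1 2 8 11)
  (.split 410128 [1, 0] (.gp 0 1 6 2 4 5 11)
  (.split 615696 [0, -1] (.gp 0 1 6 2 4 5 9)
  (.split 615744 [1] (.gp 0 5 6 1 4 7 9)
  (.gp 0 5 6 1 4 8 9)))))))))))))))))))))))))
  (.split 615746 [1] (.split 619842 [0, -1] (.gp 2 5 9 1 4 6 7)
  (.split 620098 [-1] (.gp 2 4 7 5 6 9 10)
  (.gp 2 6 9 3 4 5 7)))
  (.split 624210 [1] (.split 624194 [0, -1] (.gp 2 6 9 3 4 5 8)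
  (.split 620098 [1, 0] (.gp 4 6 9 2 5 7 8)
  (.split 619842 [1, 0] (.gp 2 4 7 5 6 9 10)
  (.split 623938 [1] (.gp 2 5 9 1 4 6 8)
  (.gp 2 4 9 5 6 7 8)))))
  (.split 554578 [1, 0] (.gp 2 5 6 4 7 8 9)
  (.split 484640 [1, 0] (.gp 2 5 6 0 7 8 9)
  (.split 693842 [1, 0] (.gp 2 5 6 0 7 9 10)
  (.split 693793 [0, -1] (.gp 2 6 9 1 3 5 10)
  (.split 694114 [0, -1] (.gp 2 6 9 3 5 7 10)
  (.split 694049 [1, 0] (.gp 2 7 10 1 4 6 9)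
  (.split 681249 [1, 0] (.gp 1 2 10 5 6 7 9)
  (.split 484641 [1, 0] (.gp 1 2 5 6 7 9 10)
  (.split 620065 [1, 0] (.gp 2 6 7 1 5 9 10)
  (.split 619297 [1, 0] (.gp 1 2 9 3 5 6 7)
  (.split 620081 [0, -1] (.gp 3 7 9 0 1 2 6)
  (.split 484129 [1, 0] (.gp 1 6 7 2 3 9 10)
  (.split 620064 [1, 0] (.gp 2 6 9 0 1 3 7)
  (.split 759649 [1, 0] (.gp 1 6 7 3 8 9 11)
  (.split 751137 [1, 0] (.gp 1 6 7 2 8 9 11)
  (.split 759585 [1] (.gp 1 2 7 3 6 9 11)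
  (.gp 1 2 7 5 6 9 11)))))))))))))))))))))))))))))))))))))))))))))))))))))))))))))))))))))))))))))))))))))))))))))))))))

def certMM : Cert :=
  (.split 274960 [1, 0] (.fac 0 1 2 3 9 4)
  (.split 406032 [1, 0] (.fac 0 1 2 3 9 6)
  (.split 471568 [1, 0] (.fac 0 1 2 3 9 7)
  (.split 606736 [1, 0] (.fac 0 1 2 9 3 4)
  (.split 733712 [1, 0] (.fac 0 1 2 3 9 11)
  (.split 738064 [0, -1] (.fac 0 1 3 11 2 4)
  (.split 737808 [0, -1] (.fac 0 1 4 11 3 2)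
  (.split 742177 [0, -1] (.fac 1 2 3 11 0 5)
  (.split 741904 [0, -1] (.fac 1 2 5 11 3 0)
  (.split 614928 [1, 0] (.fac 0 1 2 9 3 6)
  (.split 619024 [1, 0] (.fac 0 1 2 9 3 7)
  (.split 606992 [1, 0] (.fac 0 1 4 9 2 3)
  (.split 746256 [0, -1] (.fac 0 1 3 11 2 6)
  (.split 619296 [1, 0] (.fac 0 2 3 9 1 7)
  (.split 619280 [1, 0] (.fac 3 0 7 9 2 1)
  (.split 750352 [0, -1] (.fac 0 1 3 11 2 7)
  (.split 615440 [0, -1] (.fac 0 1 4 9 2 6)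
  (.split 746512 [1, 0] (.fac 0 1 4 11 3 6)
  (.split 619536 [0, -1] (.fac 0 1 4 9 2 7)
  (.split 750608 [1, 0] (.fac 0 1 4 11 3 7)
  (.split 754704 [1, 0] (.fac 0 1 4 11 3 8)
  (.split 693264 [1, 0] (.fac 0 1 4 9 2 10)
  (.split 550208 [0, -1] (.fac 4 5 6 8 7 0)
  (.split 550160 [0, -1] (.fac 0 5 6 8 4 1)
  (.split 554561 [0, -1] (.fac 4 6 7 8 5 1)
  (.split 554512 [1, 0] (.fac 1 6 7 8 4 0)
  (.split 685652 [1, 0] (.fac 4 5 6 7 8 10)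
  (.split 685649 [1, 0] (.fac 5 6 7 10 4 1)
  (.split 685584 [0, -1] (.fac 1 6 7 10 5 0)
  (.split 607008 [1, 0] (.fac 0 2 3 9 1 4)
  (.split 615200 [1, 0] (.fac 0 2 3 9 1 6)
  (.split 746273 [0, -1] (.fac 1 2 3 11 0 6)
  (.split 746272 [0, -1] (.fac 2 3 6 11 1 0)
  (.split 554562 [0, -1] (.fac 4 6 7 8 5 2)
  (.split 554016 [0, -1] (.fac 2 7 4 8 6 0)
  (.split 685378 [1, 0] (.fac 4 5 7 10 6 2)
  (.split 685088 [1, 0] (.fac 2 7 4 10 5 0)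
  (.split 619568 [0, -1] (.fac 3 0 7 9 2 4)
  (.split 750640 [1, 0] (.fac 3 0 7 11 1 4)
  (.split 619824 [0, -1] (.fac 3 0 7 9 2 5)
  (.split 620080 [0, -1] (.fac 3 0 7 9 2 6)
  (.split 751152 [1, 0] (.fac 3 0 7 11 1 6)
  (.split 624432 [1, 0] (.fac 3 0 7 9 2 8)
  (.split 694064 [0, -1] (.fac 3 0 7 9 2 10)
  (.split 484672 [1, 0] (.fac 4 5 6 7 8 0)
  (.split 685648 [1, 0] (.fac 5 6 7 10 4 0)
  (.split 681280 [1, 0] (.fac 0 5 6 10 7 4)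
  (.split 685376 [1, 0] (.fac 4 5 7 10 6 0)
  (.split 554560 [0, -1] (.fac 4 6 7 8 5 0)
  (.split 554576 [0, -1] (.fac 0 5 6 8 4 7)
  (.split 693840 [1, 0] (.fac 0 5 6 10 7 9)
  (.split 615201 [1, 0] (.fac 2 3 6 9 0 1)
  (.split 742433 [0, -1] (.fac 1 2 5 11 3 4)
  (.split 554017 [0, -1] (.fac 2 7 4 8 6 1)
  (.split 685089 [1, 0] (.fac 2 7 4 10 5 1)
  (.split 610832 [1, 0] (.fac 0 1 2 9 3 5)
  (.split 619809 [0, -1] (.fac 1 2 5 9 0 7)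
  (.split 685601 [1, 0] (.fac 1 6 7 10 5 2)
  (.split 554545 [0, -1] (.fac 1 6 7 8 4 3)
  (.split 685617 [1, 0] (.fac 1 6 7 10 5 3)
  (.split 685633 [1, 0] (.fac 1 6 7 10 5 4)
  (.split 624481 [1, 0] (.fac 1 6 7 8 4 9)
  (.split 755553 [1, 0] (.fac 1 6 7 8 4 11)
  (.split 694113 [1, 0] (.fac 1 6 7 10 5 9)
  (.split 620082 [0, -1] (.fac 2 3 6 9 0 7)
  (.split 751154 [1, 0] (.fac 2 3 6 11 1 7)
  (.split 484674 [1, 0] (.fac 4 5 6 7 8 2)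
  (.split 554306 [0, -1] (.fac 2 7 4 8 6 5)
  (.split 763714 [1, 0] (.fac 2 7 4 10 5 11)
  (.split 624484 [0, -1] (.fac 4 6 7 8 5 9)
  (.split 549904 [0, -1] (.gp 0 6 8 1 4 5 7)
  (.split 619552 [0, -1] (.gp 0 4 9 1 2 3 7)
  (.split 751153 [1, 0] (.gp 3 6 11 0 1 2 7)
  (.split 620096 [1, 0] (.split 620048 [0, -1] (.gp 0 7 9 1 3 4 6)
  (.split 615184 [1, 0] (.gp 0 1 9 3 4 6 7)
  (.split 620081 [0, -1] (.gp 3 6 9 0 1 2 7)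
  (.split 484112 [0, -1] (.gp 1 6 7 0 3 9 10)
  (.split 483856 [0, -1] (.gp 0 1 6 2 3 7 9)
  (.split 751120 [0, -1] (.gp 1 6 7 0 3 8 11)
  (.split 759568 [1, 0] (.gp 0 1 7 3 6 9 11)
  (.split 750096 [0, -1] (.gp 0 1 7 2 3 6 11)
  (.split 484368 [1, 0] (.gp 0 1 7 4 6 9 11)
  (.split 484385 [0, -1] (.gp 1 6 7 0 2 4 10)
  (.split 480289 [0, -1] (.gp 2 4 7 1 5 6 8)
  (.split 554000 [0, -1] (.gp 0 1 4 6 7 8 11)
  (.split 624480 [0, -1] (.gp 0 6 7 1 4 8 9)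
  (.split 620097 [1, 0] (.gp 6 7 9 0 1 4 8)
  (.split 475664 [1, 0] (.gp 1 4 7 0 2 6 8)
  (.split 475936 [1, 0] (.gp 0 2 7 1 3 4 9)
  (.split 619553 [1, 0] (.gp 1 4 7 0 2 6 9)
  (.split 479760 [0, -1] (.gp 1 2 7 0 4 5 9)
  (.split 475920 [1, 0] (.gp 0 1 4 2 3 7 9)
  (.split 750624 [1, 0] (.gp 0 4 7 1 2 3 11)
  (.split 344592 [1, 0] (.gp 0 1 2 4 5 7 11)
  (.split 750625 [-1] (.gp 1 2 4 0 5 7 11)
  (.gp 2 4 7 0 1 10 11)))))))))))))))))))))))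
  (.split 694080 [1, 0] (.split 694112 [0, -1] (.gp 0 7 9 3 4 6 10)
  (.split 693824 [0, -1] (.gp 0 4 9 1 6 7 10)
  (.split 685632 [0, -1] (.gp 0 6 10 4 5 7 9)
  (.split 620112 [0, -1] (.gp 0 6 7 4 5 9 10)
  (.split 694096 [0, -1] (.gp 0 7 9 3 5 6 10)
  (.split 619840 [-1] (.gp 0 5 7 4 6 9 10)
  (.gp 0 7 9 3 4 5 6)))))))
  (.split 685632 [1] (.split 619840 [0, -1] (.gp 0 4 7 5 6 9 10)
  (.split 620112 [1, 0] (.gp 0 7 9 3 4 5 6)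
  (.split 694096 [0, -1] (.gp 0 5 7 4 6 9 10)
  (.split 694112 [-1] (.gp 0 7 9 3 5 6 10)
  (.gp 0 6 7 4 5 9 10)))))
  (.split 619840 [1, 0] (.gp 0 4 7 5 6 9 10)
  (.split 480288 [0, -1] (.gp 0 4 7 2 5 9 10)
  (.split 484384 [0, -1] (.gp 0 4 7 2 5 6 9)
  (.split 624448 [1, 0] (.gp 0 4 7 2 6 8 9)
  (.split 624480 [1, 0] (.gp 0 7 9 3 4 6 8)
  (.split 484368 [-1] (.split 554000 [1] (.gp 0 4 7 1 6 8 9)
  (.gp 0 1 4 6 7 8 11))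
  (.split 620048 [0, -1] (.gp 0 6 7 1 4 8 9)
  (.split 615184 [1, 0] (.gp 0 1 9 3 4 6 7)
  (.split 620081 [0, -1] (.gp 3 6 9 0 1 2 7)
  (.split 484112 [0, -1] (.gp 1 6 7 0 3 9 10)
  (.split 483856 [0, -1] (.gp 0 1 6 2 3 7 9)
  (.split 751120 [0, -1] (.gp 1 6 7 0 3 8 11)
  (.split 759568 [-1] (.gp 0 1 7 4 6 9 11)
  (.gp 0 1 7 3 6 9 11))))))))))))))))))))))))))))))))))))))))))))))))))))))))))))))))))))))))))))))))))))))))))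

def cert : Cert :=
  .split 602640 [0] (.fac 0 1 2 3 9 9)
  (.split 602640 [1]
  (.split 554580 [0] (.fac 4 5 6 7 8 8) (.split 554580 [1] certPP certPM))
  (.split 554580 [0] (.fac 4 5 6 7 8 8) (.split 554580 [1] certMP certMM)))

theorem cert_ok : check facetList cert (fun _ => [1, 0, -1]) = true := by decide +kernel

theorem no_bracket_facetList (D : Nat → Nat → Nat → Nat → Nat → ℝ) : ¬ Bracket D facetList :=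
  no_bracket cert cert_ok

end Pool.Agent.MP_952ea4_co
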