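import Mathlib

/-! A sign-propagation checker for alternating functions of five indices that satisfy the
three-term Grassmann-Pluecker relations. -/

namespace Pool.Agent.MP_952ea4_co

/-- A signed 5-tuple of indices. -/
structure ST where
  s : Int
  a : Nat
  b : Nat
  c : Nat
  d : Nat
  e : Nat

def ST.c1 (t : ST) : ST := if t.b < t.a then ⟨-t.s, t.b, t.a, t.c, t.d, t.e⟩ else t
def ST.c2 (t : ST) : ST := if t.c < t.b then ⟨-t.s, t.a, t.c, t.b, t.d, t.e⟩ else t
def ST.c3 (t : ST) : ST := if t.d < t.c then ⟨-t.s, t.a, t.b, t.d, t.c, t.e⟩ else t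
def ST.c4 (t : ST) : ST := if t.e < t.d then ⟨-t.s, t.a, t.b, t.c, t.e, t.d⟩ else t
def ST.srt (t : ST) : ST := t.c1.c2.c3.c4.c1.c2.c3.c1.c2.c1
def ST.key (t : ST) : Nat := t.a + 16 * (t.b + 16 * (t.c + 16 * (t.d + 16 * t.e)))
def ST.small (t : ST) : Bool := t.a < 16 && t.b < 16 && t.c < 16 && t.d < 16 && t.e < 16

/-- Sign of a real number as an integer. -/
noncomputable def sg (x : ℝ) : Int := if 0 < x then 1 else if x < 0 then -1 else 0

def ok3 (a b c : Int) : Bool :=
  (a == 0 && b == 0 && c == 0) || ((0 < a || 0 < b || 0 < c) && (a < 0 || b < 0 || c < 0))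

inductive Cert
  | gp (x y z a b c d : Nat) : Cert
  | fac (i j k l x y : Nat) : Cert
  | split (k : Nat) (m : List Int) (l r : Cert) : Cert

def upd (st : Nat → List Int) (k : Nat) (m : List Int) : Nat → List Int :=
  fun j => if j = k then m else st j

def check (F : List (Nat × Nat × Nat × Nat)) : Cert → (Nat → List Int) → Bool
  | .gp x y z a b c d, st =>
    let t1 := (ST.mk 1 x y z a b).srt
    let t2 := (ST.mk 1 x y z c d).srt
    let t3 := (ST.mk 1 x y z a c).srt
    let t4 := (ST.mk 1 x y z b d).srt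
    let t5 := (ST.mk 1 x y z a d).srt
    let t6 := (ST.mk 1 x y z b c).srt
    t1.small && t2.small && t3.small && t4.small && t5.small && t6.small &&
    (st t1.key).all fun v1 => (st t2.key).all fun v2 => (st t3.key).all fun v3 =>
    (st t4.key).all fun v4 => (st t5.key).all fun v5 => (st t6.key).all fun v6 =>
      !ok3 (t1.s * v1 * (t2.s * v2)) (-(t3.s * v3 * (t4.s * v4))) (t5.s * v5 * (t6.s * v6))
  | .fac i j k l x y, st =>
    let t1 := (ST.mk 1 i j k l x).srt
    let t2 := (ST.mk 1 i j k l y).srt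
    decide ((i, j, k, l) ∈ F) && decide (x < 12) && decide (y < 12) &&
    decide (x ≠ i ∧ x ≠ j ∧ x ≠ k ∧ x ≠ l) && decide (y ≠ i ∧ y ≠ j ∧ y ≠ k ∧ y ≠ l) &&
    t1.small && t2.small &&
    (st t1.key).all fun v1 => (st t2.key).all fun v2 => decide (t1.s * v1 * (t2.s * v2) ≠ 1)
  | .split k m l r, st =>
    check F l (upd st k ((st k).filter fun v => decide (v ∈ m))) &&
    check F r (upd st k ((st k).filter fun v => !decide (v ∈ m)))

theorem sg_mul (x y : ℝ) : sg (x * y) = sg x * sg y := by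
  unfold sg
  rcases lt_trichotomy x 0 with hx | hx | hx <;> rcases lt_trichotomy y 0 with hy | hy | hy
  · simp [mul_pos_of_neg_of_neg hx hy, hx, hy, hx.not_gt, hy.not_gt]
  · simp [hy]
  · simp [(mul_neg_of_neg_of_pos hx hy), (mul_neg_of_neg_of_pos hx hy).not_gt, hx, hy, hx.not_gt]
  · simp [hx]
  · simp [hx]
  · simp [hx]
  · simp [(mul_neg_of_pos_of_neg hx hy), (mul_neg_of_pos_of_neg hx hy).not_gt, hx, hy, hy.not_gt]
  · simp [hy]
  · simp [mul_pos hx hy, hx, hy]

theorem sg_neg (x : ℝ) : sg (-x) = - sg x := by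
  unfold sg
  rcases lt_trichotomy x 0 with hx | hx | hx
  · simp [hx, hx.not_gt]
  · simp [hx]
  · simp [hx, hx.not_gt]

theorem sg_mem (x : ℝ) : sg x ∈ [1, 0, (-1 : Int)] := by
  unfold sg; split_ifs <;> simp

theorem sg_pos {x : ℝ} (h : 0 < x) : sg x = 1 := by simp [sg, h]

theorem ok3_of_sum {x y z : ℝ} (h : x + y + z = 0) : ok3 (sg x) (sg y) (sg z) = true := by
  unfold sg ok3
  rcases lt_trichotomy x 0 with hx | hx | hx <;> rcases lt_trichotomy y 0 with hy | hy | hy <;>
    rcases lt_trichotomy z 0 with hz | hz | hz <;>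
    first
    | (exfalso; linarith)
    | simp [hx, hy, hz, not_lt_of_gt hx, not_lt_of_gt hy, not_lt_of_gt hz]
    | simp [hx, hy, hz, not_lt_of_gt hx, not_lt_of_gt hy]
    | simp [hx, hy, hz, not_lt_of_gt hx, not_lt_of_gt hz]
    | simp [hx, hy, hz, not_lt_of_gt hy, not_lt_of_gt hz]
    | simp [hx, hy, hz]

/-- The hypotheses on the bracket function. -/
structure Bracket (D : Nat → Nat → Nat → Nat → Nat → ℝ) (F : List (Nat × Nat × Nat × Nat)) :
    Prop where
  sw1 : ∀ a b c d e, D b a c d e = - D a b c d e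
  sw2 : ∀ a b c d e, D a c b d e = - D a b c d e
  sw3 : ∀ a b c d e, D a b d c e = - D a b c d e
  sw4 : ∀ a b c d e, D a b c e d = - D a b c d e
  gp : ∀ x y z a b c d,
    D x y z a b * D x y z c d - D x y z a c * D x y z b d + D x y z a d * D x y z b c = 0
  fac : ∀ i j k l, (i, j, k, l) ∈ F → ∀ x y, x < 12 → y < 12 →
    (x ≠ i ∧ x ≠ j ∧ x ≠ k ∧ x ≠ l) → (y ≠ i ∧ y ≠ j ∧ y ≠ k ∧ y ≠ l) →
    0 < D i j k l x * D i j k l y

section
variable {D : Nat → Nat → Nat → Nat → Nat → ℝ} {F : List (Nat × Nat × Nat × Nat)}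

noncomputable def ST.val (D : Nat → Nat → Nat → Nat → Nat → ℝ) (t : ST) : Int :=
  t.s * sg (D t.a t.b t.c t.d t.e)

noncomputable def chi (D : Nat → Nat → Nat → Nat → Nat → ℝ) (k : Nat) : Int :=
  sg (D (k % 16) (k / 16 % 16) (k / 256 % 16) (k / 4096 % 16) (k / 65536))

theorem val_c1 (h : Bracket D F) (t : ST) : t.c1.val D = t.val D := by
  unfold ST.c1; split_ifs
  · simp only [ST.val]; rw [h.sw1, sg_neg]; ring
  · rfl
theorem val_c2 (h : Bracket D F) (t : ST) : t.c2.val D = t.val D := by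
  unfold ST.c2; split_ifs
  · simp only [ST.val]; rw [h.sw2, sg_neg]; ring
  · rfl
theorem val_c3 (h : Bracket D F) (t : ST) : t.c3.val D = t.val D := by
  unfold ST.c3; split_ifs
  · simp only [ST.val]; rw [h.sw3, sg_neg]; ring
  · rfl
theorem val_c4 (h : Bracket D F) (t : ST) : t.c4.val D = t.val D := by
  unfold ST.c4; split_ifs
  · simp only [ST.val]; rw [h.sw4, sg_neg]; ring
  · rfl

theorem val_srt (h : Bracket D F) (t : ST) : t.srt.val D = t.val D := by
  simp only [ST.srt, val_c1 h, val_c2 h, val_c3 h, val_c4 h]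

theorem chi_key (t : ST) (ht : t.small = true) : t.s * chi D t.key = t.val D := by
  obtain ⟨s, a, b, c, d, e⟩ := t
  simp only [ST.small, Bool.and_eq_true, decide_eq_true_eq] at ht
  obtain ⟨⟨⟨⟨ha, hb⟩, hc⟩, hd⟩, he⟩ := ht
  simp only [ST.val, chi, ST.key]
  have h1 : (a + 16 * (b + 16 * (c + 16 * (d + 16 * e)))) % 16 = a := by omega
  have h2 : (a + 16 * (b + 16 * (c + 16 * (d + 16 * e)))) / 16 % 16 = b := by omega
  have h3 : (a + 16 * (b + 16 * (c + 16 * (d + 16 * e)))) / 256 % 16 = c := by omega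
  have h4 : (a + 16 * (b + 16 * (c + 16 * (d + 16 * e)))) / 4096 % 16 = d := by omega
  have h5 : (a + 16 * (b + 16 * (c + 16 * (d + 16 * e)))) / 65536 = e := by omega
  rw [h1, h2, h3, h4, h5]

theorem chi_srt (h : Bracket D F) (a b c d e : Nat) (ht : (ST.mk 1 a b c d e).srt.small = true) :
    (ST.mk 1 a b c d e).srt.s * chi D (ST.mk 1 a b c d e).srt.key = sg (D a b c d e) := by
  rw [chi_key _ ht, val_srt h]; simp [ST.val]

theorem check_sound (h : Bracket D F) (t : Cert) :
    ∀ st : Nat → List Int, (∀ k, chi D k ∈ st k) → check F t st = false := by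
  induction t with
  | gp x y z a b c d =>
    intro st hst
    by_contra hc
    simp only [check, Bool.not_eq_false, Bool.and_eq_true, List.all_eq_true] at hc
    obtain ⟨⟨⟨⟨⟨⟨h1, h2⟩, h3⟩, h4⟩, h5⟩, h6⟩, hall⟩ := hc
    have := hall _ (hst _) _ (hst _) _ (hst _) _ (hst _) _ (hst _) _ (hst _)
    rw [chi_srt h _ _ _ _ _ h1, chi_srt h _ _ _ _ _ h2, chi_srt h _ _ _ _ _ h3,
      chi_srt h _ _ _ _ _ h4, chi_srt h _ _ _ _ _ h5, chi_srt h _ _ _ _ _ h6,
      ← sg_mul, ← sg_mul, ← sg_mul, ← sg_neg, ok3_of_sum (by linarith [h.gp x y z a b c d])]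
      at this
    simp at this
  | fac i j k l x y =>
    intro st hst
    by_contra hc
    simp only [check, Bool.not_eq_false, Bool.and_eq_true, List.all_eq_true,
      decide_eq_true_eq] at hc
    obtain ⟨⟨⟨⟨⟨⟨⟨hF, hx⟩, hy⟩, hx'⟩, hy'⟩, h1⟩, h2⟩, hall⟩ := hc
    have := hall _ (hst _) _ (hst _)
    rw [chi_srt h _ _ _ _ _ h1, chi_srt h _ _ _ _ _ h2, ← sg_mul,
      sg_pos (h.fac i j k l hF x y hx hy hx' hy')] at this
    exact this rfl
  | split k m l r ihl ihr =>
    intro st hst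
    simp only [check, Bool.and_eq_false_iff]
    by_cases hm : chi D k ∈ m
    · left
      apply ihl
      intro j
      unfold upd
      split_ifs with hj
      · subst hj; simp [hst, hm]
      · exact hst j
    · right
      apply ihr
      intro j
      unfold upd
      split_ifs with hj
      · subst hj; simp [hst, hm]
      · exact hst j

theorem no_bracket (t : Cert) (ht : check F t (fun _ => [1, 0, -1]) = true) : ¬ Bracket D F := by
  intro h
  have := check_sound h t (fun _ => [1, 0, -1]) (fun k => sg_mem _)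
  rw [ht] at this
  exact absurd this (by simp)

end

end Pool.Agent.MP_952ea4_co
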