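import Mathlib

namespace Pool.Agent.MP_952ea4_co

/-- The twelve vertices of the Mani-Walkup complex. -/
inductive Vtx
  | a | b | c | d | m | n | o | p | q | r | s | t
  deriving DecidableEq

open Vtx in
/-- The 24 tetrahedra of `K` other than the two written `dmrq`, `dmrs` in the problem file
(`dmnq`, `dmns` in the paper of Mani and Walkup). -/
def commonTetrahedra : List (Finset Vtx) :=
  [{a, b, c, d}, {a, b, c, r}, {a, c, d, r}, {a, b, d, t}, {b, c, d, t},
   {a, b, m, r}, {b, c, n, r}, {c, d, o, r}, {d, a, p, r},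
   {a, b, m, t}, {b, c, n, t}, {c, d, o, t}, {d, a, p, t},
   {m, n, o, p}, {m, n, o, q}, {m, o, p, q}, {n, o, p, s}, {m, n, p, s},
   {a, n, o, q}, {b, o, p, q}, {c, p, m, q},
   {a, n, o, s}, {b, o, p, s}, {c, p, m, s}]

/-- `T` is combinatorially isomorphic to the boundary complex of a convex 4-polytope `P`: the
vertices of `T` correspond bijectively to the vertices of `P`, and the faces of `T` are exactly
the vertex sets of the nonempty proper faces of `P`. -/
def IsBoundaryComplexOfFourPolytope {V : Type*} (T : AbstractSimplicialComplex V) : Prop :=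
  ∃ (X : Finset (EuclideanSpace ℝ (Fin 4))) (P : Set (EuclideanSpace ℝ (Fin 4)))
    (φ : V → EuclideanSpace ℝ (Fin 4)),
    P = convexHull ℝ (X : Set (EuclideanSpace ℝ (Fin 4))) ∧ (interior P).Nonempty ∧
    Set.BijOn φ Set.univ (Set.extremePoints ℝ P) ∧
    ∀ S : Finset V, S ∈ T.faces ↔
      ∃ F : Set (EuclideanSpace ℝ (Fin 4)), F.Nonempty ∧ F ≠ P ∧ IsExposed ℝ P F ∧
        F ∩ Set.extremePoints ℝ P = φ '' (S : Set V)

end Pool.Agent.MP_952ea4_co
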