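import Pool.Agent.MP_952ea4_co.Defs
import Pool.Agent.MP_952ea4_co.Cert

namespace Pool.Agent.MP_952ea4_co

open Matrix

noncomputable def det5 (a b c d e : Fin 5 → ℝ) : ℝ := (Matrix.of ![a, b, c, d, e]).det

theorem det5_sw1 (a b c d e : Fin 5 → ℝ) : det5 b a c d e = - det5 a b c d e := by
  have : Matrix.of ![b, a, c, d, e] = (Matrix.of ![a, b, c, d, e]).submatrix (Equiv.swap 0 1) id := by
    ext i j; fin_cases i <;> simp [Equiv.swap_apply_def]
  rw [det5, this, Matrix.det_permute, Equiv.Perm.sign_swap (by decide)]; simp [det5]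

theorem det5_sw2 (a b c d e : Fin 5 → ℝ) : det5 a c b d e = - det5 a b c d e := by
  have : Matrix.of ![a, c, b, d, e] = (Matrix.of ![a, b, c, d, e]).submatrix (Equiv.swap 1 2) id := by
    ext i j; fin_cases i <;> simp [Equiv.swap_apply_def]
  rw [det5, this, Matrix.det_permute, Equiv.Perm.sign_swap (by decide)]; simp [det5]

theorem det5_sw3 (a b c d e : Fin 5 → ℝ) : det5 a b d c e = - det5 a b c d e := by
  have : Matrix.of ![a, b, d, c, e] = (Matrix.of ![a, b, c, d, e]).submatrix (Equiv.swap 2 3) id := by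
    ext i j; fin_cases i <;> simp [Equiv.swap_apply_def]
  rw [det5, this, Matrix.det_permute, Equiv.Perm.sign_swap (by decide)]; simp [det5]

theorem det5_sw4 (a b c d e : Fin 5 → ℝ) : det5 a b c e d = - det5 a b c d e := by
  have : Matrix.of ![a, b, c, e, d] = (Matrix.of ![a, b, c, d, e]).submatrix (Equiv.swap 3 4) id := by
    ext i j; fin_cases i <;> simp [Equiv.swap_apply_def]
  rw [det5, this, Matrix.det_permute, Equiv.Perm.sign_swap (by decide)]; simp [det5]

theorem six_coord (a b c d e f : Fin 5 → ℝ) (j : Fin 5) :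
    a j * det5 b c d e f - b j * det5 a c d e f + c j * det5 a b d e f - d j * det5 a b c e f
      + e j * det5 a b c d f - f j * det5 a b c d e = 0 := by
  let u : Fin 6 → Fin 5 → ℝ := ![a, b, c, d, e, f]
  let M : Matrix (Fin 6) (Fin 6) ℝ := Matrix.of fun k => Fin.cons (u k j) (u k)
  have h0 : M.det = 0 := by
    apply Matrix.det_zero_of_column_eq (i := 0) (j := j.succ) (Fin.succ_ne_zero j).symm
    intro k; simp [M]
  rw [Matrix.det_succ_column_zero] at h0
  have e0 : M.submatrix (Fin.succAbove 0) Fin.succ = Matrix.of ![b, c, d, e, f] := by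
    ext i k; fin_cases i <;> simp [M, u]
  have e1 : M.submatrix (Fin.succAbove 1) Fin.succ = Matrix.of ![a, c, d, e, f] := by
    ext i k; fin_cases i <;> simp [M, u, Fin.succAbove]
  have e2 : M.submatrix (Fin.succAbove 2) Fin.succ = Matrix.of ![a, b, d, e, f] := by
    ext i k; fin_cases i <;> simp [M, u, Fin.succAbove]
  have e3 : M.submatrix (Fin.succAbove 3) Fin.succ = Matrix.of ![a, b, c, e, f] := by
    ext i k; fin_cases i <;> simp [M, u, Fin.succAbove]
  have e4 : M.submatrix (Fin.succAbove 4) Fin.succ = Matrix.of ![a, b, c, d, f] := by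
    ext i k; fin_cases i <;> simp [M, u, Fin.succAbove]
  have e5 : M.submatrix (Fin.succAbove 5) Fin.succ = Matrix.of ![a, b, c, d, e] := by
    ext i k; fin_cases i <;> simp [M, u, Fin.succAbove]
  rw [Fin.sum_univ_six, e0, e1, e2, e3, e4, e5] at h0
  simp only [det5]
  have m0 : M 0 0 = a j := by simp [M, u]
  have m1 : M 1 0 = b j := by simp [M, u]
  have m2 : M 2 0 = c j := by simp [M, u]
  have m3 : M 3 0 = d j := by simp [M, u]
  have m4 : M 4 0 = e j := by simp [M, u]
  have m5 : M 5 0 = f j := by simp [M, u]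
  rw [m0, m1, m2, m3, m4, m5] at h0
  norm_num at h0
  linarith

theorem six_lin (L : (Fin 5 → ℝ) →ₗ[ℝ] ℝ) (a b c d e f : Fin 5 → ℝ) :
    L a * det5 b c d e f - L b * det5 a c d e f + L c * det5 a b d e f - L d * det5 a b c e f
      + L e * det5 a b c d f - L f * det5 a b c d e = 0 := by
  have h : det5 b c d e f • a - det5 a c d e f • b + det5 a b d e f • c - det5 a b c e f • d
      + det5 a b c d f • e - det5 a b c d e • f = 0 := by
    ext j
    have := six_coord a b c d e f j
    simp only [Pi.add_apply, Pi.sub_apply, Pi.smul_apply, smul_eq_mul, Pi.zero_apply]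
    linarith
  have := congrArg L h
  simp only [map_add, map_sub, map_smul, smul_eq_mul, map_zero] at this
  linarith

theorem exists_lin (x y z a : Fin 5 → ℝ) :
    ∃ L : (Fin 5 → ℝ) →ₗ[ℝ] ℝ, ∀ v, L v = det5 x y z a v := by
  have h : ∀ v, det5 x y z a v = ((Matrix.of ![x, y, z, a, 0]).updateRow 4 v).det := by
    intro v
    unfold det5
    congr 1
    ext i j; fin_cases i <;> simp [Matrix.updateRow_apply]
  refine ⟨IsLinearMap.mk' (fun v => det5 x y z a v) ⟨fun u v => ?_, fun c v => ?_⟩, fun v => rfl⟩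
  · simp only [h, Matrix.det_updateRow_add]
  · simp only [h, Matrix.det_updateRow_smul, smul_eq_mul]

theorem det5_gp (x y z a b c d : Fin 5 → ℝ) :
    det5 x y z a b * det5 x y z c d - det5 x y z a c * det5 x y z b d
      + det5 x y z a d * det5 x y z b c = 0 := by
  obtain ⟨L, hL⟩ := exists_lin x y z a
  have h := six_lin L x y z b c d
  have hx : det5 x y z a x = 0 :=
    Matrix.det_zero_of_row_eq (i := 0) (j := 4) (by decide) (by ext; simp)
  have hy : det5 x y z a y = 0 :=
    Matrix.det_zero_of_row_eq (i := 1) (j := 4) (by decide) (by ext; simp)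
  have hz : det5 x y z a z = 0 :=
    Matrix.det_zero_of_row_eq (i := 2) (j := 4) (by decide) (by ext; simp)
  simp only [hL, hx, hy, hz] at h
  linarith

/-- A simplex all of whose faces are exposed gives brackets of constant nonzero sign. -/
theorem facet_sign {W : Type*} [DecidableEq W] (Y : W → Fin 5 → ℝ) (hY : ∀ v, Y v 0 = 1)
    (w : Fin 4 → W) (hw : Function.Injective w)
    (H : ∀ S : Finset (Fin 4), S.Nonempty → ∃ L : (Fin 5 → ℝ) →ₗ[ℝ] ℝ,
      ∀ v, (v ∈ S.image w → L (Y v) = 0) ∧ (v ∉ S.image w → 0 < L (Y v)))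
    (x y : W) (hx : ∀ i, x ≠ w i) (hy : ∀ i, y ≠ w i) :
    0 < det5 (Y (w 0)) (Y (w 1)) (Y (w 2)) (Y (w 3)) (Y x) *
      det5 (Y (w 0)) (Y (w 1)) (Y (w 2)) (Y (w 3)) (Y y) := by
  obtain ⟨L, hL⟩ := H Finset.univ Finset.univ_nonempty
  have hw0 : ∀ i, L (Y (w i)) = 0 := fun i => (hL _).1 (Finset.mem_image_of_mem _ (Finset.mem_univ _))
  have hpos : ∀ v, (∀ i, v ≠ w i) → 0 < L (Y v) := fun v hv => (hL v).2 (by
    simp only [Finset.mem_image, Finset.mem_univ, true_and, not_exists]
    exact fun i h => hv i h.symm)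
  have hne : det5 (Y (w 0)) (Y (w 1)) (Y (w 2)) (Y (w 3)) (Y x) ≠ 0 := by
    intro h0
    obtain ⟨c, hc0, hc⟩ := Matrix.exists_vecMul_eq_zero_iff.2 h0
    have hsum : c 0 • Y (w 0) + c 1 • Y (w 1) + c 2 • Y (w 2) + c 3 • Y (w 3) + c 4 • Y x = 0 := by
      ext j
      have := congrFun hc j
      simpa [Matrix.vecMul, dotProduct, Fin.sum_univ_five] using this
    have h4 : c 4 = 0 := by
      have := congrArg L hsum
      simp only [map_add, map_smul, hw0, smul_eq_mul, mul_zero, zero_add, map_zero] at this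
      exact (mul_eq_zero.1 this).resolve_right (hpos x hx).ne'
    have hs : ∑ i : Fin 4, c i.castSucc • Y (w i) = 0 := by
      rw [Fin.sum_univ_four]
      simpa [h4] using hsum
    have hs0 : ∑ i : Fin 4, c i.castSucc = 0 := by
      have := congrFun hs 0
      simpa [Finset.sum_apply, hY] using this
    have hall : ∀ i : Fin 4, c i.castSucc = 0 := by
      by_cases hS : (Finset.univ.filter fun i : Fin 4 => 0 < c i.castSucc).Nonempty
      · exfalso
        obtain ⟨L1, hL1⟩ := H _ hS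
        have h1 := congrArg L1 hs
        simp only [map_sum, map_smul, smul_eq_mul, map_zero] at h1
        have hmem : ∀ i, w i ∈ (Finset.univ.filter fun i : Fin 4 => 0 < c i.castSucc).image w ↔
            0 < c i.castSucc := by
          intro i
          rw [hw.mem_finset_image]; simp
        have hle : ∀ i ∈ (Finset.univ : Finset (Fin 4)), c i.castSucc * L1 (Y (w i)) ≤ 0 := by
          intro i _
          by_cases hi : 0 < c i.castSucc
          · rw [(hL1 _).1 ((hmem i).2 hi)]; simp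
          · exact mul_nonpos_of_nonpos_of_nonneg (not_lt.1 hi)
              ((hL1 _).2 (fun h => hi ((hmem i).1 h))).le
        have hz := (Finset.sum_eq_zero_iff_of_nonpos hle).1 h1
        have hge : ∀ i ∈ (Finset.univ : Finset (Fin 4)), 0 ≤ c i.castSucc := by
          intro i hi
          by_contra hneg
          have hneg' : c i.castSucc < 0 := not_le.1 hneg
          have := (hL1 _).2 (fun h => hneg'.not_gt ((hmem i).1 h))
          exact (mul_neg_of_neg_of_pos hneg' this).ne (hz i hi)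
        obtain ⟨i, hi⟩ := hS
        have := (Finset.sum_eq_zero_iff_of_nonneg hge).1 hs0 i (Finset.mem_univ _)
        simp only [Finset.mem_filter] at hi
        exact hi.2.ne' this
      · have hle : ∀ i ∈ (Finset.univ : Finset (Fin 4)), c i.castSucc ≤ 0 := by
          intro i hi
          by_contra h
          exact hS ⟨i, by simpa using h⟩
        exact fun i => (Finset.sum_eq_zero_iff_of_nonpos hle).1 hs0 i (Finset.mem_univ _)
    apply hc0
    ext i
    refine Fin.lastCases ?_ (fun i => hall i) i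
    exact h4
  have h6 := six_lin L (Y (w 0)) (Y (w 1)) (Y (w 2)) (Y (w 3)) (Y x) (Y y)
  simp only [hw0, zero_mul, sub_zero, add_zero, zero_add] at h6
  have hx' := hpos x hx
  have hy' := hpos y hy
  have : det5 (Y (w 0)) (Y (w 1)) (Y (w 2)) (Y (w 3)) (Y y) =
      L (Y y) / L (Y x) * det5 (Y (w 0)) (Y (w 1)) (Y (w 2)) (Y (w 3)) (Y x) := by
    field_simp; linarith
  rw [this]
  have := mul_self_pos.2 hne
  have h2 := div_pos hy' hx'
  nlinarith [mul_pos h2 this]

open Vtx in
def vtx : Nat → Vtx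
  | 0 => a | 1 => b | 2 => c | 3 => d | 4 => m | 5 => n | 6 => o | 7 => p | 8 => q | 9 => r
  | 10 => s | _ => t

theorem vtx_inj : ∀ i < 12, ∀ j < 12, vtx i = vtx j → i = j := by decide

theorem facetList_ok : ∀ f ∈ facetList, f.1 < 12 ∧ f.2.1 < 12 ∧ f.2.2.1 < 12 ∧ f.2.2.2 < 12 ∧
    Function.Injective ![vtx f.1, vtx f.2.1, vtx f.2.2.1, vtx f.2.2.2] ∧
    Finset.univ.image ![vtx f.1, vtx f.2.1, vtx f.2.2.1, vtx f.2.2.2] ∈ commonTetrahedra := by
  decide +kernel

theorem main {V : Type*} (T : AbstractSimplicialComplex V) (ι : Vtx ↪ V)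
    (hK : ∀ τ ∈ commonTetrahedra, τ.map ι ∈ T.faces) : ¬ IsBoundaryComplexOfFourPolytope T := by
  rintro ⟨X, P, φ, -, -, hφ, hF⟩
  let Y : Vtx → Fin 5 → ℝ := fun v => Fin.cons 1 (fun j => φ (ι v) j)
  have key : ∀ S : Finset Vtx, S.map ι ∈ T.faces → ∃ L : (Fin 5 → ℝ) →ₗ[ℝ] ℝ,
      ∀ v, (v ∈ S → L (Y v) = 0) ∧ (v ∉ S → 0 < L (Y v)) := by
    intro S hS
    obtain ⟨F, hFne, -, hFe, hFS⟩ := (hF _).1 hS
    obtain ⟨l, hl⟩ := hFe hFne
    obtain ⟨x0, hx0⟩ := hFne
    have hx0' := hx0
    rw [hl] at hx0'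
    let L : (Fin 5 → ℝ) →ₗ[ℝ] ℝ := l x0 • LinearMap.proj 0 -
      (l : EuclideanSpace ℝ (Fin 4) →ₗ[ℝ] ℝ) ∘ₗ (WithLp.linearEquiv 2 ℝ (Fin 4 → ℝ)).symm.toLinearMap ∘ₗ
        LinearMap.funLeft ℝ ℝ Fin.succ
    have hL : ∀ v, L (Y v) = l x0 - l (φ (ι v)) := by
      intro v
      have : (WithLp.toLp 2 (LinearMap.funLeft ℝ ℝ Fin.succ (Y v)) : EuclideanSpace ℝ (Fin 4))
          = φ (ι v) := by
        ext j; simp [Y, LinearMap.funLeft]
      simp [L, this, Y]
    have hext : ∀ v, φ (ι v) ∈ Set.extremePoints ℝ P := fun v => hφ.mapsTo (Set.mem_univ _)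
    refine ⟨L, fun v => ⟨fun hv => ?_, fun hv => ?_⟩⟩
    · have : φ (ι v) ∈ F ∩ Set.extremePoints ℝ P := by
        rw [hFS]; exact ⟨ι v, by simpa using hv, rfl⟩
      have h1 := this.1
      rw [hl] at h1
      rw [hL]
      linarith [h1.2 x0 hx0'.1, hx0'.2 _ h1.1]
    · rw [hL]
      have h1 := hx0'.2 _ (hext v).1
      rcases h1.lt_or_eq with h | h
      · linarith
      · exfalso
        have h2 : φ (ι v) ∈ F := by
          rw [hl]; exact ⟨(hext v).1, fun y hy => by rw [h]; exact hx0'.2 y hy⟩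
        have h3 : φ (ι v) ∈ φ '' ((S.map ι : Finset V) : Set V) := by
          rw [← hFS]; exact ⟨h2, hext v⟩
        obtain ⟨u, hu, huv⟩ := h3
        have := hφ.injOn (Set.mem_univ _) (Set.mem_univ _) huv
        subst this
        exact hv (by simpa using hu)
  apply no_bracket_facetList
    (fun i j k l m => det5 (Y (vtx i)) (Y (vtx j)) (Y (vtx k)) (Y (vtx l)) (Y (vtx m)))
  refine ⟨fun _ _ _ _ _ => det5_sw1 .., fun _ _ _ _ _ => det5_sw2 .., fun _ _ _ _ _ => det5_sw3 ..,
    fun _ _ _ _ _ => det5_sw4 .., fun _ _ _ _ _ _ _ => det5_gp .., ?_⟩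
  intro i j k l hf x y hx hy hx' hy'
  obtain ⟨hi, hj, hk, hl, hinj, hmem⟩ := facetList_ok _ hf
  have hne : ∀ z < 12, (z ≠ i ∧ z ≠ j ∧ z ≠ k ∧ z ≠ l) →
      ∀ r, vtx z ≠ ![vtx i, vtx j, vtx k, vtx l] r := by
    intro z hz hz' r
    fin_cases r
    · exact fun h => hz'.1 (vtx_inj _ hz _ hi h)
    · exact fun h => hz'.2.1 (vtx_inj _ hz _ hj h)
    · exact fun h => hz'.2.2.1 (vtx_inj _ hz _ hk h)
    · exact fun h => hz'.2.2.2 (vtx_inj _ hz _ hl h)
  refine facet_sign Y (fun v => by simp [Y]) ![vtx i, vtx j, vtx k, vtx l] hinj ?_ (vtx x) (vtx y)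
    (hne x hx hx') (hne y hy hy')
  intro S hS
  apply key
  refine (T.isRelLowerSet_faces (hK _ hmem)).2 ?_ ?_
  · exact Finset.map_subset_map.2 (Finset.image_subset_image (Finset.subset_univ _))
  · simpa using hS

end Pool.Agent.MP_952ea4_co
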